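import Pool.Agent.Helper8.KT.Sheet

open Set Filter Topology MeasureTheory

namespace Pool.Agent.Helper47.KTS

open Pool.Agent.Helper8.KT

theorem stREC (hS : ST_ST) : ST_REC := by
  classical
  intro d hd f hf D hD
  have hbase : Lip1 0 (fun y => f 0 - y 0) ∧ Inv d f D 0 (fun y => f 0 - y 0) := by
    constructor
    · intro y y' r h
      have h0 := h 0 le_rfl
      have e : f 0 - y 0 - (f 0 - y' 0) = -(y 0 - y' 0) := by ring
      rw [e, abs_neg]
      exact h0
    · intro y hy hj j
      obtain ⟨i, hi, hyi⟩ := hj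
      have hi0 : i = 0 := by omega
      subst hi0
      have h1 := (hy j 0).2
      have h2 := (hy 0 j).2
      have h3 := (abs_le.mp (hf j 0)).2
      have h4 := (abs_le.mp (hf 0 j)).2
      constructor <;> linarith
  choose! stp hs1 hs2 hs3 using fun (n : ℕ) (G : (ℕ → ℝ) → ℝ) (h : Lip1 n G)
    (h' : Inv d f D n G) => hS d hd f hf D hD n G h h'
  let G : ℕ → (ℕ → ℝ) → ℝ := fun n => Nat.rec (fun y => f 0 - y 0) (fun n g => stp n g) n
  have hG : ∀ n, Lip1 n (G n) ∧ Inv d f D n (G n) := by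
    intro n
    induction n with
    | zero => exact hbase
    | succ n ih => exact ⟨hs1 n (G n) ih.1 ih.2, hs2 n (G n) ih.1 ih.2⟩
  refine ⟨G, fun n => (hG n).1, fun n => (hG n).2, fun m n hmn y hy hj => ?_⟩
  induction n, hmn using Nat.le_induction with
  | base => rfl
  | succ n hn ih =>
    rw [← ih]
    obtain ⟨j, hj1, hj2⟩ := hj
    exact hs3 n (G n) (hG n).1 (hG n).2 y hy ⟨j, hj1.trans hn, hj2⟩

end Pool.Agent.Helper47.KTS
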